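import Pool.Agent.MWGX.StmtsB

/-!
# MWGX, row CLG: the closure properties of the doubling pentagon with a gap
-/

set_option autoImplicit false

namespace Pool.Agent.MWGX.H66

open Pool.Agent.Helper14_MV Pool.Agent.Helper2_MV
open Pool.Agent.MWK (pre)
open Pool.Agent.MWF (gaml)
open Pool.Agent.MWGN (nn Nm WC WT Tau Ns nl sg)
open Pool.Agent.MWGQ (pw Gn E0 A0 P0 bd kr krl Rs)
open Pool.Agent.MWGR (X It Kaba F1 Dm Ec Es Ea Al0 Rh FE)

/-- a letter of `ghc g u N` is in a content or in a pin -/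
theorem mem_ghc {g u : ℕ → List ℕ} {N d : ℕ} (h : d ∈ ghc g u N) :
    (∃ i ≤ N, d ∈ u i) ∨ ∃ i < N, d ∈ g i := by
  unfold ghc at h
  rw [List.mem_append, List.mem_flatMap] at h
  rcases h with ⟨i, hi, hd⟩ | h
  · rw [List.mem_range] at hi
    rw [List.mem_append] at hd
    rcases hd with hd | hd
    · exact Or.inl ⟨i, hi.le, hd⟩
    · exact Or.inr ⟨i, hi, hd⟩
  · exact Or.inl ⟨N, le_rfl, h⟩

/-- counts of a content -/
theorem count_u_ghc {g u : ℕ → List ℕ} {N i : ℕ} (hi : i ≤ N) (d : ℕ) :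
    (u i).count d ≤ (ghc g u N).count d := by
  unfold ghc
  rw [List.count_append]
  rcases Nat.lt_or_ge i N with h | h
  · have hs : List.Sublist (u i ++ g i) ((List.range N).flatMap (fun i => u i ++ g i)) := by
      obtain ⟨s, t, hst⟩ := List.append_of_mem (List.mem_range.2 h)
      rw [hst, List.flatMap_append, List.flatMap_cons]
      exact (List.sublist_append_left _ _).trans (List.sublist_append_right _ _)
    have := hs.count_le d
    rw [List.count_append] at this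
    omega
  · have : i = N := le_antisymm hi h
    subst this
    omega

/-- the letters of `ghc` occur twice -/
theorem two_ghc {g u : ℕ → List ℕ} {N : ℕ} {H : List ℕ}
    (hg : ∀ i < N, ∃ H1 H2, H = H1 ++ (g i ++ H2)) (hu : ∀ i ≤ N, ∀ d ∈ u i, 2 ≤ (u i).count d)
    {a b q w : List ℕ} (hw : w = a ++ (ghc g u N ++ (b ++ (H ++ q)))) :
    ∀ d ∈ ghc g u N, 2 ≤ w.count d := by
  intro d hd
  rw [hw]
  simp only [List.count_append]
  rcases mem_ghc hd with ⟨i, hi, h⟩ | ⟨i, hi, h⟩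
  · have h1 := hu i hi d h
    have h2 := count_u_ghc (g := g) (u := u) hi d
    omega
  · obtain ⟨H1, H2, e⟩ := hg i hi
    have h1 : 0 < (ghc g u N).count d := List.count_pos_iff.2 hd
    have h2 : 0 < H.count d := by
      rw [List.count_pos_iff, e]
      simp [h]
    omega

/-- an exchange keeps `K0`, in both directions -/
theorem k0_ex (h3 : WcgStmt) {n c δ : ℕ} (hn : 2 ≤ n) (hδ : δ ∣ n) {p Z A B F G H w w' : List ℕ}
    (hE : Ex n c p Z A B F G H w w') (hG : ∀ d ∈ G, 2 ≤ w.count d) (τ : List ℕ) (m : ℕ)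
    {v v' : List ℕ} (hv : (v = w ∧ v' = w') ∨ (v = w' ∧ v' = w)) (hK : K0 n δ τ m v) :
    K0 n δ τ m v' := by
  obtain ⟨a1, a2, a3, a4, a5⟩ := h3 n c δ p Z A B F G H w w' hn hδ hE hG N1 5 τ m m m (by omega)
    v v' hv hK.c1
  obtain ⟨b1, b2, b3, b4, b5⟩ := h3 n c δ p Z A B F G H w w' hn hδ hE hG (N2 m) 6 τ m (m + 1) (m + 2)
    (by omega) v v' hv hK.c2
  exact ⟨a1, a2 hK.t1, a3 hK.g1, a4 hK.g1 hK.l1, a5 hK.r1, b1, b2 hK.t2, b3 hK.g2,
    b4 hK.g2 hK.l2, b5 hK.r2⟩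

/-- an exchange and the order of `z, z'` -/
theorem kc_ex (h3 : WcgStmt) (h4 : SpyStmt) {n c δ : ℕ} (hn : 2 ≤ n) (hδ : δ ∣ n)
    {p Z A B F G H w w' : List ℕ}
    (hE : Ex n c p Z A B F G H w w') (hG : ∀ d ∈ G, 2 ≤ w.count d) (τ : List ℕ) (m : ℕ)
    (hd : KC n δ τ m w → ¬ (N1.L m ∈ A ∧ N1.L (m + 1) ∈ B)) :
    KC n δ τ m w ↔ KC n δ τ m w' := by
  constructor
  · rintro ⟨hK, ho⟩
    have hK' := k0_ex h3 hn hδ hE hG τ m (Or.inl ⟨rfl, rfl⟩) hK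
    exact ⟨hK', (h4 n c p Z A B F G H w w' (by omega) hE hG (N2 m) (m + 1) (m + 2) hK.c2 hK'.c2).1
      ho (hd ⟨hK, ho⟩)⟩
  · rintro ⟨hK', ho⟩
    have hK := k0_ex h3 hn hδ hE hG τ m (Or.inr ⟨rfl, rfl⟩) hK'
    exact ⟨hK, (h4 n c p Z A B F G H w w' (by omega) hE hG (N2 m) (m + 1) (m + 2) hK.c2 hK'.c2).2
      ho⟩

/-- an exchange and the order of `0, 1` -/
theorem kb_ex (h3 : WcgStmt) (h4 : SpyStmt) {n c δ : ℕ} (hn : 2 ≤ n) (hδ : δ ∣ n)
    {p Z A B F G H w w' : List ℕ}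
    (hE : Ex n c p Z A B F G H w w') (hG : ∀ d ∈ G, 2 ≤ w.count d) (τ : List ℕ) (m : ℕ) :
    (KB n δ τ m w → ¬ (0 ∈ A ∧ 1 ∈ B) → KB n δ τ m w') ∧ (KB n δ τ m w' → KB n δ τ m w) := by
  constructor
  · rintro ⟨hK, ho⟩ hd
    have hK' := k0_ex h3 hn hδ hE hG τ m (Or.inl ⟨rfl, rfl⟩) hK
    exact ⟨hK', (h4 n c p Z A B F G H w w' (by omega) hE hG N1 m m hK.c1 hK'.c1).1 ho hd⟩
  · rintro ⟨hK', ho⟩
    have hK := k0_ex h3 hn hδ hE hG τ m (Or.inr ⟨rfl, rfl⟩) hK'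
    exact ⟨hK, (h4 n c p Z A B F G H w w' (by omega) hE hG N1 m m hK.c1 hK'.c1).2 ho⟩

/-- **row CLG** -/
theorem clg (h1 : Fg1Stmt) (h2 : Fg2Stmt) (h3 : WcgStmt) (h4 : SpyStmt) (h5 : Mc1Stmt)
    (h6 : Mc2Stmt) (h7 : Mc3Stmt) : ClgStmt := by
  intro n δ hn hδ τ m hτ f p q
  -- level 1
  have L1 : ∀ o' : Bool, ∃ G H : List ℕ, Ex n 1 p (f 5) (f 0) (f 1) (f 2) G H
      (p ++ (w0 n τ m true o').flatMap f ++ q) (p ++ (w0 n τ m false o').flatMap f ++ q) ∧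
      ∀ d ∈ G, 2 ≤ (p ++ (w0 n τ m true o').flatMap f ++ q).count d := by
    intro o'
    obtain ⟨g, u, H, e, hg, hu, -, -⟩ := h1 n hn τ m hτ f o'
    refine ⟨ghc g u (m + 2), H ++ q, ⟨?_, ?_⟩, ?_⟩
    · rw [e true]
      simp [List.append_assoc]
    · rw [e false]
      simp [List.append_assoc]
    · refine two_ghc (q := q) (a := p ++ (gL n 1 (f 5) (f 0) (f 1) ++ (f 2 ++ f 0))) (b := f 1)
        hg hu ?_
      rw [e true]
      simp [List.append_assoc]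
  -- level 2
  have L2 : ∀ o : Bool, ∃ P F G H : List ℕ, Ex n 1 P (f 6) (f (N1.L m)) (f (N1.L (m + 1))) F G H
      (p ++ (w0 n τ m o true).flatMap f ++ q) (p ++ (w0 n τ m o false).flatMap f ++ q) ∧
      ∀ d ∈ G, 2 ≤ (p ++ (w0 n τ m o true).flatMap f ++ q).count d := by
    intro o
    obtain ⟨P, F, H, g, u, e, hg, hu, -⟩ := h2 n hn τ m hτ f o
    refine ⟨p ++ P, F, ghc g u (m + 3), H ++ q, ⟨?_, ?_⟩, ?_⟩
    · rw [e true]
      simp [List.append_assoc]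
    · rw [e false]
      simp [List.append_assoc]
    · refine two_ghc (q := q) (a := p ++ (P ++ (gL n 1 (f 6) (f (N1.L m)) (f (N1.L (m + 1))) ++
        (F ++ f (N1.L m))))) (b := f (N1.L (m + 1))) hg hu ?_
      rw [e true]
      simp [List.append_assoc]
  have C1 : ∀ o' : Bool, KC n δ τ m (p ++ (w0 n τ m true o').flatMap f ++ q) ↔
      KC n δ τ m (p ++ (w0 n τ m false o').flatMap f ++ q) := by
    intro o'
    obtain ⟨G, H, hE, hG⟩ := L1 o'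
    exact kc_ex h3 h4 hn hδ hE hG τ m (h5 n δ hn τ m hτ o' f p q)
  refine ⟨C1, ?_, ?_⟩
  · intro o
    obtain ⟨P, F, G, H, hE, hG⟩ := L2 o
    have hB := kb_ex h3 h4 hn hδ hE hG τ m
    exact ⟨fun h => hB.1 h (h7 n δ hn τ m hτ o f p q h), hB.2⟩
  · obtain ⟨G, H, hE, hG⟩ := L1 false
    have hB := kb_ex h3 h4 hn hδ hE hG τ m
    constructor
    · rintro ⟨hb, hc⟩
      exact ⟨hB.1 hb (h6 n δ hn τ m hτ f p q hb hc), (C1 false).1 hc⟩
    · rintro ⟨hb, hc⟩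
      exact ⟨hB.2 hb, (C1 false).2 hc⟩

end Pool.Agent.MWGX.H66
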