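import Pool.Agent.MWGX.StmtsA

/-!
# MWGX, row EI2: `F1` and `Es c` imply `Ea c`
-/

set_option autoImplicit false

namespace Pool.Agent.MWGX.H66

open Pool.Agent.Helper14_MV Pool.Agent.Helper2_MV
open Pool.Agent.MWK (pre)
open Pool.Agent.MWF (gaml)
open Pool.Agent.MWGN (nn)
open Pool.Agent.MWGQ (pw Gn E0 A0 P0)
open Pool.Agent.MWGR (X It Kaba F1 Dm Ec Es Ea Al0 Rh FE)

/-- powers of the letter `1` -/
abbrev O (k : ℕ) : List ℕ := List.replicate k 1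

theorem O_add (a b : ℕ) : O (a + b) = O a ++ O b := List.replicate_add ..

theorem pw_one (k : ℕ) : pw k [1] = O k := by
  have := flat_rep k 1 (fun _ => [1])
  rw [← this]
  induction k with
  | zero => rfl
  | succ k ih =>
    rw [List.replicate_succ, List.flatMap_cons, ih (flat_rep k 1 _)]
    rfl

/-- `.. 1 u 1 q ~ .. 1 u 1^(n+1) q` -/
theorem one_pow {n : ℕ} {β : FIC} (h : MWGQ.PwxStmt) (hG : Gn n β) (p u q : List ℕ) :
    RR β (p ++ 1 :: (u ++ (O 1 ++ q))) (p ++ 1 :: (u ++ (O (n + 1) ++ q))) := by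
  have h2 := (h n β hG).2.1 [1] u 1 (n + 1) le_rfl (by omega)
    (by unfold Nat.ModEq; rw [Nat.add_mod_left])
  rw [pw_one, pw_one] at h2
  have h3 := ((RR.refl (β := β) p).append h2).append (RR.refl q)
  simpa only [List.append_assoc, List.cons_append, List.nil_append] using h3

/-- the step between the tails -/
theorem tail {n : ℕ} {β θ : FIC} (h : MWGQ.PwxStmt) (hG : Gn n β) (hle : β ≤ θ)
    (hF : F1 n (RR θ)) (p u : List ℕ) :
    RR θ (p ++ 1 :: (u ++ [3, 1, 4, 2, 5, 1])) (p ++ 1 :: (u ++ 3 :: 1 :: 4 :: (O n ++ [2, 5, 1]))) := by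
  have key : ∀ v : List ℕ, RR θ (p ++ 1 :: (u ++ 3 :: 1 :: 4 :: (v ++ [2, 5, 1])))
      (p ++ 1 :: (u ++ 3 :: (O (n + 1) ++ 4 :: (v ++ 2 :: 5 :: O (n + 1))))) := by
    intro v
    have s1 := hle _ _ (one_pow h hG p (u ++ [3]) (4 :: (v ++ [2, 5, 1])))
    have s2 := hle _ _ (one_pow h hG p (u ++ 3 :: (O (n + 1) ++ 4 :: (v ++ [2, 5]))) [])
    refine θ.trans (b := FreeMonoid.ofList
      (p ++ 1 :: (u ++ 3 :: (O (n + 1) ++ 4 :: (v ++ [2, 5, 1]))))) ?_ ?_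
    · have e1 : p ++ 1 :: (u ++ 3 :: 1 :: 4 :: (v ++ [2, 5, 1])) =
          p ++ 1 :: (u ++ [3] ++ (O 1 ++ 4 :: (v ++ [2, 5, 1]))) := by simp
      have e2 : p ++ 1 :: (u ++ 3 :: (O (n + 1) ++ 4 :: (v ++ [2, 5, 1]))) =
          p ++ 1 :: (u ++ [3] ++ (O (n + 1) ++ 4 :: (v ++ [2, 5, 1]))) := by simp
      rw [e1, e2]
      exact s1
    · have e1 : p ++ 1 :: (u ++ 3 :: (O (n + 1) ++ 4 :: (v ++ [2, 5, 1]))) =
          p ++ 1 :: (u ++ 3 :: (O (n + 1) ++ 4 :: (v ++ [2, 5])) ++ (O 1 ++ [])) := by simp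
      have e2 : p ++ 1 :: (u ++ 3 :: (O (n + 1) ++ 4 :: (v ++ 2 :: 5 :: O (n + 1)))) =
          p ++ 1 :: (u ++ 3 :: (O (n + 1) ++ 4 :: (v ++ [2, 5])) ++ (O (n + 1) ++ [])) := by simp
      rw [e1, e2]
      exact s2
  have k0 := key []
  have k1 := key (O n)
  obtain ⟨m, rfl⟩ : ∃ m, n = m + 1 := ⟨n - 1, by have := hG.pos; omega⟩
  have hf := RR.sub (fun d => if d = 0 then [1] else if d = 2 then [4] else [2, 5]) hF
  have e0 : (X (m + 1)).flatMap (fun d => if d = 0 then [1] else if d = 2 then [4] else [2, 5]) =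
      O (m + 1) := by
    rw [flat_rep]
    exact pw_one _
  rw [List.flatMap_append, List.flatMap_append, e0] at hf
  have hf2 : RR θ [1, 1, 4, 2, 5, 1, 1] ([1, 1, 4] ++ (O (m + 1) ++ [2, 5, 1, 1])) := hf
  have hf3 := ((RR.refl (β := θ) (p ++ 1 :: (u ++ 3 :: O m))).append hf2).append (RR.refl (O m))
  have hO1 : O (m + 1 + 1) = O m ++ [1, 1] := by
    rw [show m + 1 + 1 = m + 2 from rfl, O_add]
    rfl
  have hO2 : O (m + 1 + 1) = [1, 1] ++ O m := by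
    rw [show m + 1 + 1 = 2 + m from by omega, O_add]
    rfl
  have eA : p ++ 1 :: (u ++ 3 :: (O (m + 1 + 1) ++ 4 :: (([] : List ℕ) ++ 2 :: 5 :: O (m + 1 + 1)))) =
      p ++ 1 :: (u ++ 3 :: O m) ++ [1, 1, 4, 2, 5, 1, 1] ++ O m := by
    have : p ++ 1 :: (u ++ 3 :: (O (m + 1 + 1) ++ 4 :: (([] : List ℕ) ++ 2 :: 5 :: O (m + 1 + 1)))) =
      p ++ 1 :: (u ++ 3 :: ((O m ++ [1, 1]) ++ 4 :: (([] : List ℕ) ++ 2 :: 5 :: ([1, 1] ++ O m)))) := by
      rw [← hO1, ← hO2]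
    rw [this]
    simp only [List.append_assoc, List.cons_append, List.nil_append]
  have eB : p ++ 1 :: (u ++ 3 :: (O (m + 1 + 1) ++ 4 :: (O (m + 1) ++ 2 :: 5 :: O (m + 1 + 1)))) =
      p ++ 1 :: (u ++ 3 :: O m) ++ ([1, 1, 4] ++ (O (m + 1) ++ [2, 5, 1, 1])) ++ O m := by
    have : p ++ 1 :: (u ++ 3 :: (O (m + 1 + 1) ++ 4 :: (O (m + 1) ++ 2 :: 5 :: O (m + 1 + 1)))) =
      p ++ 1 :: (u ++ 3 :: ((O m ++ [1, 1]) ++ 4 :: (O (m + 1) ++ 2 :: 5 :: ([1, 1] ++ O m)))) := by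
      rw [← hO1, ← hO2]
    rw [this]
    simp only [List.append_assoc, List.cons_append, List.nil_append]
  rw [eA] at k0
  rw [eB] at k1
  exact θ.trans k0 (θ.trans hf3 (RR.symm k1))

/-- **row EI2** -/
theorem ei2 (h : MWGQ.PwxStmt) : Ei2Stmt := by
  intro n β θ hG hle hF c hE
  have hn := hG.pos
  obtain ⟨m, rfl⟩ : ∃ m, n = m + 1 := ⟨n - 1, by omega⟩
  -- the substitution in `Es`
  have hs := RR.sub (fun d => if d = 3 then 3 :: 1 :: 4 :: O m else [d]) hE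
  rw [flat_l, flat_r] at hs
  have hs' := hs.append (RR.refl (β := θ) [5, 1])
  have p0 : ∀ k, pw k ([0] : List ℕ) = X k := by
    intro k
    have := flat_rep k 0 (fun _ => [0])
    rw [← this]
    induction k with
    | zero => rfl
    | succ k ih =>
      rw [List.replicate_succ, List.flatMap_cons, ih (flat_rep k 0 _)]
      rfl
  have eO : O m ++ ([1, 2] : List ℕ) = O (m + 1) ++ [2] := by
    rw [O_add]
    simp
  have hs2 : RR θ (X (m + 1) ++ 1 :: (X (m + 1 + c) ++ 2 :: X (m + 1) ++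
        3 :: 1 :: 4 :: (O (m + 1) ++ [2, 5, 1])))
      (X (m + 1 + c) ++ 2 :: X (m + 1 + (m + 1 - 1) * c) ++ 1 :: (X (m + 1 + c) ++
        3 :: 1 :: 4 :: (O (m + 1) ++ [2, 5, 1]))) := by
    have eT : (([3, 1, 2] : List ℕ).flatMap
        (fun d => if d = 3 then 3 :: 1 :: 4 :: O m else [d])) ++ [5, 1] =
        3 :: 1 :: 4 :: (O (m + 1) ++ [2, 5, 1]) := by
      have : (([3, 1, 2] : List ℕ).flatMap
        (fun d => if d = 3 then 3 :: 1 :: 4 :: O m else [d])) = 3 :: 1 :: 4 :: (O m ++ [1, 2]) := by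
        simp
      rw [this, eO]
      simp
    rw [List.append_assoc, List.append_assoc, eT] at hs'
    have e1 : gL (m + 1) c [0] [1] [2] ++ 3 :: 1 :: 4 :: (O (m + 1) ++ [2, 5, 1]) =
        X (m + 1) ++ 1 :: (X (m + 1 + c) ++ 2 :: X (m + 1) ++
        3 :: 1 :: 4 :: (O (m + 1) ++ [2, 5, 1])) := by
      unfold gL
      rw [p0, p0]
      simp only [List.append_assoc, List.cons_append, List.nil_append]
    have e2 : gR (m + 1) c [0] [1] [2] ++ 3 :: 1 :: 4 :: (O (m + 1) ++ [2, 5, 1]) =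
        X (m + 1 + c) ++ 2 :: X (m + 1 + (m + 1 - 1) * c) ++ 1 :: (X (m + 1 + c) ++
        3 :: 1 :: 4 :: (O (m + 1) ++ [2, 5, 1])) := by
      unfold gR
      rw [p0, p0]
      simp only [List.append_assoc, List.cons_append, List.nil_append]
    rw [← e1, ← e2]
    exact hs'
  have tL := tail h hG hle hF (X (m + 1)) (X (m + 1 + c) ++ 2 :: X (m + 1))
  have tR := tail h hG hle hF (X (m + 1 + c) ++ 2 :: X (m + 1 + (m + 1 - 1) * c)) (X (m + 1 + c))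
  have fin := θ.trans tL (θ.trans hs2 (RR.symm tR))
  have g1 : X (m + 1) ++ 1 :: (X (m + 1 + c) ++ 2 :: (X (m + 1) ++ [3, 1, 4, 2, 5, 1])) =
      X (m + 1) ++ 1 :: (X (m + 1 + c) ++ 2 :: X (m + 1) ++ [3, 1, 4, 2, 5, 1]) := by
    simp only [List.append_assoc, List.cons_append]
  have g2 : X (m + 1 + c) ++ 2 :: (X (m + 1 + (m + 1 - 1) * c) ++
        1 :: (X (m + 1 + c) ++ [3, 1, 4, 2, 5, 1])) =
      X (m + 1 + c) ++ 2 :: X (m + 1 + (m + 1 - 1) * c) ++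
        1 :: (X (m + 1 + c) ++ [3, 1, 4, 2, 5, 1]) := by
    simp only [List.append_assoc, List.cons_append]
  unfold Ea Ec
  rw [g1, g2]
  exact fin

end Pool.Agent.MWGX.H66
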